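import Pool.Agent.KS6_51.BFac.Gen

/-!
# Counting: the integers prime to `p`, in increasing order
-/

set_option autoImplicit false

open Finset

namespace Pool.Agent.KS6_51.BFac

open Pool.Agent.Results.MP_1b3ee4_nt.PrimeTriplets

/-- the `i`-th positive integer which is not divisible by `p` (counting from `0`) -/
def u (p i : ℕ) : ℕ := i / (p - 1) * p + i % (p - 1) + 1

lemma u_mod {p : ℕ} (hp : 2 ≤ p) (i : ℕ) : u p i % p = i % (p - 1) + 1 := by
  unfold u
  have h1 : i % (p - 1) < p - 1 := Nat.mod_lt _ (by omega)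
  rw [show i / (p - 1) * p + i % (p - 1) + 1 = (i % (p - 1) + 1) + p * (i / (p - 1)) by ring,
    Nat.add_mul_mod_self_left]
  exact Nat.mod_eq_of_lt (by omega)

lemma u_div {p : ℕ} (hp : 2 ≤ p) (i : ℕ) : u p i / p = i / (p - 1) := by
  unfold u
  have h1 : i % (p - 1) < p - 1 := Nat.mod_lt _ (by omega)
  rw [show i / (p - 1) * p + i % (p - 1) + 1 = (i % (p - 1) + 1) + p * (i / (p - 1)) by ring,
    Nat.add_mul_div_left _ _ (by omega), Nat.div_eq_of_lt (by omega)]
  simp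

/-- `u i ≡ u j` modulo `p ^ (m + 1)` iff `i ≡ j` modulo `p ^ m * (p - 1)` -/
lemma u_modEq {p : ℕ} (hp : 2 ≤ p) (m i j : ℕ) :
    u p i ≡ u p j [MOD p ^ (m + 1)] ↔ i ≡ j [MOD p ^ m * (p - 1)] := by
  unfold Nat.ModEq
  rw [pow_succ' p m, mul_comm (p ^ m) (p - 1), Nat.mod_mul, Nat.mod_mul, Nat.mod_mul, Nat.mod_mul,
    u_mod hp, u_mod hp, u_div hp, u_div hp]
  have h1 : i % (p - 1) < p - 1 := Nat.mod_lt _ (by omega)
  have h2 : j % (p - 1) < p - 1 := Nat.mod_lt _ (by omega)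
  generalize i % (p - 1) = A at *
  generalize j % (p - 1) = B at *
  generalize i / (p - 1) % p ^ m = C at *
  generalize j / (p - 1) % p ^ m = D at *
  obtain ⟨q, rfl⟩ : ∃ q, p = q + 1 := ⟨p - 1, by omega⟩
  simp only [Nat.add_sub_cancel] at *
  constructor
  · intro h
    have h3 : A = B ∧ C = D := by
      have h4 : (A + 1 + (q + 1) * C) % (q + 1) = (B + 1 + (q + 1) * D) % (q + 1) := by rw [h]
      rw [Nat.add_mul_mod_self_left, Nat.add_mul_mod_self_left, Nat.mod_eq_of_lt (by omega),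
        Nat.mod_eq_of_lt (by omega)] at h4
      have h5 : A = B := by omega
      subst h5
      refine ⟨rfl, ?_⟩
      have h6 : (q + 1) * C = (q + 1) * D := by omega
      exact Nat.eq_of_mul_eq_mul_left (by omega) h6
    rw [h3.1, h3.2]
  · intro h
    have h3 : A = B ∧ C = D := by
      have h4 : (A + q * C) % q = (B + q * D) % q := by rw [h]
      rw [Nat.add_mul_mod_self_left, Nat.add_mul_mod_self_left, Nat.mod_eq_of_lt (by omega),
        Nat.mod_eq_of_lt (by omega)] at h4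
      subst h4
      refine ⟨rfl, ?_⟩
      have h6 : q * C = q * D := by omega
      exact Nat.eq_of_mul_eq_mul_left (by omega) h6
    rw [h3.1, h3.2]

/-- every integer prime to `p` is congruent to some `u i₀` -/
lemma exists_u {p : ℕ} (hp : p.Prime) (m : ℕ) {x : ℤ} (hx : ¬ (p : ℤ) ∣ x) :
    ∃ i₀, (p : ℤ) ^ (m + 1) ∣ x - u p i₀ := by
  have h2 := hp.two_le
  have hpos : (0 : ℤ) < (p : ℤ) ^ (m + 1) := by
    have : (0 : ℤ) < p := by exact_mod_cast hp.pos
    positivity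
  obtain ⟨r, hr⟩ : ∃ r : ℕ, (r : ℤ) = x % (p : ℤ) ^ (m + 1) :=
    ⟨(x % (p : ℤ) ^ (m + 1)).toNat, Int.toNat_of_nonneg (Int.emod_nonneg _ hpos.ne')⟩
  have hr1 : (p : ℤ) ^ (m + 1) ∣ x - r := by
    rw [hr]
    exact Int.dvd_self_sub_emod
  have hr2 : r % p ≠ 0 := by
    intro h
    apply hx
    have h3 : (p : ℤ) ∣ r := by exact_mod_cast Nat.dvd_of_mod_eq_zero h
    have h4 : (p : ℤ) ∣ x - r := (dvd_pow_self _ (by omega)).trans hr1
    have := dvd_add h4 h3
    simpa using this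
  have hr3 : r % p < p := Nat.mod_lt _ hp.pos
  refine ⟨(r / p) * (p - 1) + (r % p - 1), ?_⟩
  have h5 : u p ((r / p) * (p - 1) + (r % p - 1)) = r := by
    unfold u
    have h8 : r % p - 1 < p - 1 := by omega
    have h9 : 0 < p - 1 := by omega
    have h6 : ((r / p) * (p - 1) + (r % p - 1)) / (p - 1) = r / p := by
      rw [mul_comm, Nat.mul_add_div h9, Nat.div_eq_of_lt h8, add_zero]
    have h7 : ((r / p) * (p - 1) + (r % p - 1)) % (p - 1) = r % p - 1 := by
      rw [mul_comm, Nat.mul_add_mod, Nat.mod_eq_of_lt h8]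
    rw [h6, h7]
    have := Nat.div_add_mod r p
    rw [mul_comm] at this
    omega
  rw [h5]
  exact hr1

/-- `∑_m ⌊n / (p^m (p-1))⌋` -/
def E (p n : ℕ) (K : ℕ) : ℕ := ∑ m ∈ range K, n / (p ^ m * (p - 1))

/-- powers of `p` dividing an integer -/
lemma pow_card_dvd {p : ℕ} (hp : p.Prime) (K : ℕ) (w : ℤ) :
    (p : ℤ) ^ (#{m ∈ range K | (p : ℤ) ^ (m + 1) ∣ w}) ∣ w := by
  have : Fact p.Prime := ⟨hp⟩
  rw [padicValInt_dvd_iff]
  by_cases hw : w = 0
  · left; exact hw
  · right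
    have h1 : ({m ∈ range K | (p : ℤ) ^ (m + 1) ∣ w} : Finset ℕ) ⊆ range (padicValInt p w) := by
      intro m hm
      rw [mem_filter, padicValInt_dvd_iff] at hm
      rw [mem_range]
      rcases hm.2 with h | h
      · exact absurd h hw
      · omega
    simpa using card_le_card h1

lemma sum_card_swap {ι : Type*} (S : Finset ι) (K : ℕ) (P : ι → ℕ → Prop)
    [∀ i m, Decidable (P i m)] :
    ∑ i ∈ S, #{m ∈ range K | P i m} = ∑ m ∈ range K, #{i ∈ S | P i m} := by
  simp only [card_filter]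
  exact sum_comm

/-- lower bound for the exponent of a product -/
lemma pow_dvd_prod {ι : Type*} {p : ℕ} (hp : p.Prime) (S : Finset ι) (f : ι → ℤ) (K : ℕ) :
    (p : ℤ) ^ (∑ m ∈ range K, #{i ∈ S | (p : ℤ) ^ (m + 1) ∣ f i}) ∣ ∏ i ∈ S, f i := by
  classical
  rw [← sum_card_swap S K (fun i m => (p : ℤ) ^ (m + 1) ∣ f i), ← prod_pow_eq_pow_sum]
  exact prod_dvd_prod_of_dvd _ _ fun i _ => pow_card_dvd hp K (f i)

/-- upper bound for the exponent of a product -/
lemma not_pow_dvd_prod {ι : Type*} {p : ℕ} (hp : p.Prime) (S : Finset ι) (f : ι → ℤ) (K : ℕ)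
    (hK : ∀ i ∈ S, ¬ (p : ℤ) ^ (K + 1) ∣ f i) {t : ℕ}
    (ht : ∑ m ∈ range K, #{i ∈ S | (p : ℤ) ^ (m + 1) ∣ f i} < t) :
    ¬ (p : ℤ) ^ t ∣ ∏ i ∈ S, f i := by
  classical
  have : Fact p.Prime := ⟨hp⟩
  have hf0 : ∀ i ∈ S, f i ≠ 0 := by
    intro i hi h
    apply hK i hi
    rw [h]
    exact dvd_zero _
  rw [← sum_card_swap S K (fun i m => (p : ℤ) ^ (m + 1) ∣ f i)] at ht
  have h1 : ∀ i ∈ S, #{m ∈ range K | (p : ℤ) ^ (m + 1) ∣ f i} = padicValInt p (f i) := by
    intro i hi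
    have h2 : ¬ K + 1 ≤ padicValInt p (f i) := fun h => hK i hi
      ((padicValInt_dvd_iff _ _).2 (Or.inr h))
    have h3 : ({m ∈ range K | (p : ℤ) ^ (m + 1) ∣ f i} : Finset ℕ) = range (padicValInt p (f i)) := by
      ext m
      rw [mem_filter, padicValInt_dvd_iff, mem_range, mem_range]
      constructor
      · rintro ⟨_, h | h⟩
        · exact absurd h (hf0 i hi)
        · omega
      · intro h
        exact ⟨by omega, Or.inr (by omega)⟩
    rw [h3, card_range]
  rw [sum_congr rfl h1] at ht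
  rw [padicValInt_dvd_iff]
  rintro (h | h)
  · exact prod_ne_zero_iff.2 hf0 h
  · have h4 : padicValInt p (∏ i ∈ S, f i) = ∑ i ∈ S, padicValInt p (f i) := by
      clear ht h h1 hK
      induction S using Finset.induction_on with
      | empty => simp [padicValInt.one]
      | insert i S hi ih =>
        rw [prod_insert hi, sum_insert hi, padicValInt.mul (hf0 i (mem_insert_self _ _))
          (prod_ne_zero_iff.2 fun j hj => hf0 j (mem_insert_of_mem hj)),
          ih fun j hj => hf0 j (mem_insert_of_mem hj)]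
    omega

lemma card_modEq (M n v : ℕ) (hM : 0 < M) :
    #{i ∈ range n | i ≡ v [MOD M]} = n / M + if v % M < n % M then 1 else 0 := by
  rw [← Nat.count_eq_card_filter_range, Nat.count_modEq_card _ hM]

/-- the polynomial `∏_{i<n} (X - u i)` at the integers prime to `p` -/
lemma units_dvd {p : ℕ} (hp : p.Prime) (n K : ℕ) {x : ℤ} (hx : ¬ (p : ℤ) ∣ x) :
    (p : ℤ) ^ (E p n K) ∣ ∏ i ∈ range n, (x - u p i) := by
  refine (pow_dvd_pow _ ?_).trans (pow_dvd_prod hp (range n) (fun i => x - u p i) K)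
  unfold E
  refine sum_le_sum fun m _ => ?_
  obtain ⟨i₀, hi₀⟩ := exists_u hp m hx
  have hM : 0 < p ^ m * (p - 1) := Nat.mul_pos (pow_pos hp.pos _) (by have := hp.two_le; omega)
  have h1 : ({i ∈ range n | (p : ℤ) ^ (m + 1) ∣ x - u p i} : Finset ℕ) =
      {i ∈ range n | i ≡ i₀ [MOD p ^ m * (p - 1)]} := by
    apply filter_congr
    intro i _
    rw [← u_modEq hp.two_le, ← Int.natCast_modEq_iff, Int.modEq_iff_dvd]
    push_cast
    constructor
    · intro h
      have := dvd_sub h hi₀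
      have h2 : x - (u p i : ℤ) - (x - u p i₀) = (u p i₀ : ℤ) - u p i := by ring
      rwa [h2] at this
    · intro h
      have := dvd_add h hi₀
      have h2 : (u p i₀ : ℤ) - u p i + (x - u p i₀) = x - u p i := by ring
      rwa [h2] at this
  rw [h1, card_modEq _ _ _ hM]
  omega

/-- the exponents of the differences of the `u i` -/
lemma units_diff {p : ℕ} (hp : p.Prime) (N K j : ℕ) (hj : j < N) :
    ∑ m ∈ range K, #{i ∈ (range N).erase j | (p : ℤ) ^ (m + 1) ∣ (u p j : ℤ) - u p i} ≤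
      E p (N - 1) K := by
  unfold E
  refine sum_le_sum fun m _ => ?_
  have hM : 0 < p ^ m * (p - 1) := Nat.mul_pos (pow_pos hp.pos _) (by have := hp.two_le; omega)
  have h1 : ({i ∈ (range N).erase j | (p : ℤ) ^ (m + 1) ∣ (u p j : ℤ) - u p i} : Finset ℕ) =
      ({i ∈ range N | i ≡ j [MOD p ^ m * (p - 1)]}).erase j := by
    ext i
    simp only [mem_filter, mem_erase]
    rw [← u_modEq hp.two_le, ← Int.natCast_modEq_iff, Int.modEq_iff_dvd]
    push_cast
    tauto
  have hmem : j ∈ ({i ∈ range N | i ≡ j [MOD p ^ m * (p - 1)]} : Finset ℕ) :=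
    mem_filter.2 ⟨mem_range.2 hj, rfl⟩
  rw [h1, card_erase_of_mem hmem, card_modEq _ _ _ hM]
  obtain ⟨n, rfl⟩ : ∃ n, N = n + 1 := ⟨N - 1, by omega⟩
  have h2 : (n + 1) / (p ^ m * (p - 1)) =
      n / (p ^ m * (p - 1)) + if p ^ m * (p - 1) ∣ n + 1 then 1 else 0 := Nat.succ_div
  have h3 : n + 1 - 1 = n := rfl
  rw [h3, h2]
  by_cases h4 : p ^ m * (p - 1) ∣ n + 1
  · rw [if_pos h4, Nat.mod_eq_zero_of_dvd h4, if_neg (Nat.not_lt_zero _)]
    exact le_of_eq (by simp)
  · rw [if_neg h4, add_zero]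
    split_ifs
    · exact le_of_eq (by simp)
    · exact Nat.sub_le _ _

end Pool.Agent.KS6_51.BFac
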