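import Pool.Graph.R_seed8.Results.MP_1b3ee4_nt.PrimeTriplets

/-!
# Bhargava's factorials: comparison lemmas

* `lower`: if a monic integer polynomial of degree `n` takes values divisible by `p ^ e` on `Y`, then
  the `n`-th exponent of every `p`-ordering of `Y` is at least `e`.
* `upper`: if `X` contains `z 0, …, z n` such that no `∏_{j ≠ i} (z i - z j)` is divisible by `p ^ t`,
  then the `n`-th exponent of every `p`-ordering of `X` is less than `t`.
-/

set_option autoImplicit false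

open Finset Polynomial

namespace Pool.Agent.KS6_51.BFac

open Pool.Agent.Results.MP_1b3ee4_nt.PrimeTriplets

/-- the polynomial `∏_{i<k} (X - a i)` -/
noncomputable def nodal (a : ℕ → ℤ) (k : ℕ) : ℤ[X] := ∏ i ∈ range k, (X - C (a i))

lemma nodal_monic (a : ℕ → ℤ) (k : ℕ) : (nodal a k).Monic :=
  monic_prod_of_monic _ _ fun i _ => monic_X_sub_C (a i)

lemma nodal_natDegree (a : ℕ → ℤ) (k : ℕ) : (nodal a k).natDegree = k := by
  unfold nodal
  rw [natDegree_prod_of_monic _ _ fun i _ => monic_X_sub_C (a i),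
    sum_congr rfl fun i _ => natDegree_X_sub_C (a i)]
  simp

lemma nodal_eval (a : ℕ → ℤ) (k : ℕ) (x : ℤ) :
    (nodal a k).eval x = ∏ i ∈ range k, (x - a i) := by
  unfold nodal
  rw [eval_prod]
  simp

lemma pow_dvd_iff_expo {p : ℕ} {a : ℕ → ℤ} {k : ℕ} {x : ℤ} {e : ℕ} :
    (p : ℤ) ^ e ∣ ∏ i ∈ range k, (x - a i) ↔ (e : ℕ∞) ≤ expo p a k x := by
  unfold expo
  exact pow_dvd_iff_le_emultiplicity

/-- **Lower bound.** -/
theorem lower {p n e : ℕ} (hp : p.Prime) {Y : Set ℤ} {b : ℕ → ℤ} (hb : IsPOrdering Y p n b)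
    {F : ℤ[X]} (hF : F.Monic) (hdeg : F.natDegree = n)
    (hval : ∀ y ∈ Y, (p : ℤ) ^ e ∣ F.eval y) : (e : ℕ∞) ≤ expo p b n (b n) := by
  have hpp : Prime (p : ℤ) := Nat.prime_iff_prime_int.1 hp
  have key : ∀ j ≤ n, ∃ G : ℤ[X], G.Monic ∧ G.natDegree = n - j ∧
      ∀ y ∈ Y, (p : ℤ) ^ e ∣ (∏ i ∈ range j, (y - b i)) * G.eval y := by
    intro j
    induction j with
    | zero =>
      intro _
      refine ⟨F, hF, by simpa using hdeg, fun y hy => ?_⟩
      simpa using hval y hy
    | succ j ih =>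
      intro hj
      obtain ⟨G, hG1, hG2, hG3⟩ := ih (by omega)
      have hbj : b j ∈ Y := (hb j (by omega)).1
      -- divide `G - G(b j)` by `X - b j`
      have hroot : (X - C (b j)) * (G /ₘ (X - C (b j))) = G - C (G.eval (b j)) := by
        have h1 := modByMonic_add_div G (X - C (b j))
        rw [modByMonic_X_sub_C_eq_C_eval] at h1
        linear_combination h1
      refine ⟨G /ₘ (X - C (b j)), ?_, ?_, ?_⟩
      · have h1 : (G /ₘ (X - C (b j))).leadingCoeff = G.leadingCoeff := by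
          apply leadingCoeff_divByMonic_of_monic (monic_X_sub_C _)
          rw [degree_X_sub_C, degree_eq_natDegree hG1.ne_zero, hG2]
          exact_mod_cast (by omega : 1 ≤ n - j)
        exact h1.trans hG1
      · rw [natDegree_divByMonic _ (monic_X_sub_C _), hG2, natDegree_X_sub_C]
        omega
      · intro y hy
        have h1 : (y - b j) * (G /ₘ (X - C (b j))).eval y = G.eval y - G.eval (b j) := by
          have := congrArg (eval y) hroot
          simpa using this
        rw [prod_range_succ, mul_assoc, h1, mul_sub]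
        refine dvd_sub (hG3 y hy) ?_
        rw [pow_dvd_iff_le_emultiplicity, emultiplicity_mul hpp]
        have h2 := hG3 _ hbj
        rw [pow_dvd_iff_le_emultiplicity, emultiplicity_mul hpp] at h2
        refine h2.trans (add_le_add ?_ le_rfl)
        exact (hb j (by omega)).2 y hy
  obtain ⟨G, hG1, hG2, hG3⟩ := key n le_rfl
  have hG4 : G = 1 := by
    apply hG1.natDegree_eq_zero.1
    omega
  have := hG3 _ (hb n le_rfl).1
  rw [hG4, eval_one, mul_one] at this
  exact pow_dvd_iff_expo.1 this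

/-- **Upper bound.** -/
theorem upper {p n t : ℕ} (hp : p.Prime) {X' : Set ℤ} {a : ℕ → ℤ} (ha : IsPOrdering X' p n a)
    (z : ℕ → ℤ) (hz : ∀ i ≤ n, z i ∈ X')
    (hinj : ∀ i ≤ n, ∀ j ≤ n, i ≠ j → z i ≠ z j)
    (ht : ∀ i ≤ n, ¬ (p : ℤ) ^ t ∣ ∏ j ∈ (range (n + 1)).erase i, (z i - z j)) :
    expo p a n (a n) < t := by
  have : Fact p.Prime := ⟨hp⟩
  by_contra hcon
  push Not at hcon
  have hinj' : Set.InjOn (fun i : ℕ => ((z i : ℤ) : ℚ)) (range (n + 1) : Finset ℕ) := by
    intro i hi j hj hij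
    by_contra hne
    rw [mem_coe, mem_range] at hi hj
    apply hinj i (by omega) j (by omega) hne
    simpa using hij
  have hcard : ((#(range (n + 1)) : ℕ) : WithBot ℕ) = ((nodal a n).map (Int.castRingHom ℚ)).degree + 1 := by
    rw [degree_eq_natDegree ((nodal_monic a n).map _).ne_zero, (nodal_monic a n).natDegree_map,
      nodal_natDegree, card_range]
    norm_cast
  have h1 := Lagrange.leadingCoeff_eq_sum hinj' hcard
  rw [((nodal_monic a n).map (Int.castRingHom ℚ)).leadingCoeff] at h1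
  have h2 : padicNorm p (1 : ℚ) < 1 := by
    conv_lhs => rw [h1]
    refine padicNorm.sum_lt (by simp) fun i hi => ?_
    have hi' : i ≤ n := by rw [mem_range] at hi; omega
    have hev : ((nodal a n).map (Int.castRingHom ℚ)).eval ((z i : ℤ) : ℚ) =
        (((∏ j ∈ range n, (z i - a j) : ℤ)) : ℚ) := by
      rw [← nodal_eval, eval_map]
      simp [eval₂_at_intCast]
    have hden : (∏ j ∈ (range (n + 1)).erase i, (((z i : ℤ) : ℚ) - ((z j : ℤ) : ℚ))) =
        ((∏ j ∈ (range (n + 1)).erase i, (z i - z j) : ℤ) : ℚ) := by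
      push_cast
      rfl
    rw [hev, hden, padicNorm.div]
    have h3 : padicNorm p ((∏ j ∈ range n, (z i - a j) : ℤ) : ℚ) ≤ (p : ℚ) ^ (-t : ℤ) := by
      rw [← padicNorm.dvd_iff_norm_le]
      push_cast
      rw [pow_dvd_iff_expo]
      exact hcon.trans ((ha n le_rfl).2 _ (hz i hi'))
    have h4 : (p : ℚ) ^ (-t : ℤ) <
        padicNorm p ((∏ j ∈ (range (n + 1)).erase i, (z i - z j) : ℤ) : ℚ) := by
      rw [← not_le, ← padicNorm.dvd_iff_norm_le]
      push_cast
      exact ht i hi'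
    have h5 : (0 : ℚ) < (p : ℚ) ^ (-t : ℤ) := by
      have : (0 : ℚ) < p := by exact_mod_cast hp.pos
      positivity
    rw [div_lt_one (h5.trans h4)]
    exact h3.trans_lt h4
  rw [padicNorm.one] at h2
  exact lt_irrefl _ h2

/-- Bhargava's monotonicity, for one prime. -/
theorem mono {p n : ℕ} (hp : p.Prime) {X' Y : Set ℤ} (hXY : Y ⊆ X') {a b : ℕ → ℤ}
    (ha : IsPOrdering X' p n a) (hb : IsPOrdering Y p n b) {e : ℕ}
    (he : (e : ℕ∞) ≤ expo p a n (a n)) : (e : ℕ∞) ≤ expo p b n (b n) := by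
  refine lower hp hb (nodal_monic a n) (nodal_natDegree a n) fun y hy => ?_
  rw [nodal_eval, pow_dvd_iff_expo]
  exact he.trans ((ha n le_rfl).2 y (hXY hy))

end Pool.Agent.KS6_51.BFac
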