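import Pool.Agent.KS6_51.BFac.Sets

/-!
# Bhargava's factorials of sets of primes: the ratio to the factorials of all primes
-/

set_option autoImplicit false

open Finset

namespace Pool.Agent.KS6_51.BFac

open Pool.Agent.Results.MP_1b3ee4_nt.PrimeTriplets

lemma prod_pow_factorization {S : Finset ℕ} (hS : ∀ q ∈ S, q.Prime) (g : ℕ → ℕ) (p : ℕ) :
    (∏ q ∈ S, q ^ g q).factorization p = if p ∈ S then g p else 0 := by
  rw [Nat.factorization_prod fun q hq => pow_ne_zero _ (hS q hq).ne_zero, Finsupp.finsetSum_apply]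
  rw [sum_congr rfl fun q hq => by
    rw [Nat.Prime.factorization_pow (hS q hq), Finsupp.single_apply]]
  rw [sum_ite_eq']

/-- the exponents of a factorial -/
lemma factorization_spec {X : Set ℤ} {n N : ℕ} (h : IsFactorial X n N) :
    N ≠ 0 ∧ ∀ p : ℕ, p.Prime → ∃ a : ℕ → ℤ, IsPOrdering X p n a ∧
      expo p a n (a n) = (N.factorization p : ℕ) := by
  obtain ⟨ν, B, h1, h2, rfl⟩ := h
  refine ⟨prod_ne_zero_iff.2 fun q hq => pow_ne_zero _ (mem_filter.1 hq).2.ne_zero, fun p hp => ?_⟩
  obtain ⟨a, ha, he⟩ := h1 p hp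
  refine ⟨a, ha, ?_⟩
  rw [he, prod_pow_factorization fun q hq => (mem_filter.1 hq).2]
  split_ifs with h
  · rfl
  · have h3 : B < p := by
      by_contra hlt
      exact h (mem_filter.2 ⟨mem_range.2 (by omega), hp⟩)
    rw [h2 p hp h3]

open scoped Classical in
/-- The primes `p` outside `Y` with `(p - 1) ∣ n` (they are at most `n + 1` if `1 ≤ n`). -/
noncomputable def missing (Y : Set ℤ) (n : ℕ) : Finset ℕ :=
  (range (n + 2)).filter fun p : ℕ => p.Prime ∧ (p : ℤ) ∉ Y ∧ (p - 1) ∣ n

lemma mem_missing {Y : Set ℤ} {n p : ℕ} (hn : 1 ≤ n) :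
    p ∈ missing Y n ↔ p.Prime ∧ (p : ℤ) ∉ Y ∧ (p - 1) ∣ n := by
  classical
  unfold missing
  rw [mem_filter, mem_range]
  constructor
  · exact fun h => h.2
  · intro h
    have h1 := Nat.le_of_dvd (by omega) h.2.2
    have h2 := h.1.two_le
    exact ⟨by omega, h⟩

/-- the extra factor -/
noncomputable def extra (Y : Set ℤ) (n : ℕ) : ℕ := ∏ p ∈ missing Y n, p ^ (1 + padicValNat p n)

lemma extra_ne_zero {Y : Set ℤ} {n : ℕ} (hn : 1 ≤ n) : extra Y n ≠ 0 :=
  prod_ne_zero_iff.2 fun _ hq => pow_ne_zero _ ((mem_missing hn).1 hq).1.ne_zero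

open scoped Classical in
lemma extra_factorization {Y : Set ℤ} {n : ℕ} (hn : 1 ≤ n) {p : ℕ} (hp : p.Prime) :
    (extra Y n).factorization p =
      if (p : ℤ) ∉ Y ∧ (p - 1) ∣ n then 1 + padicValNat p n else 0 := by
  unfold extra
  rw [prod_pow_factorization fun q hq => ((mem_missing hn).1 hq).1]
  simp only [mem_missing hn, hp, true_and]

/-- the set of all primes meets all the classes -/
lemma allPrimes_dense {p : ℕ} (hp : p.Prime) : UnitDense AllPrimes p := by
  intro k c hc
  have hne : NeZero (p ^ k) := ⟨pow_ne_zero _ hp.ne_zero⟩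
  have hunit : IsUnit ((c : ℤ) : ZMod (p ^ k)) := by
    rw [ZMod.coe_int_isUnit_iff_isCoprime]
    push_cast
    apply IsCoprime.pow_left
    exact (Prime.coprime_iff_not_dvd (Nat.prime_iff_prime_int.1 hp)).2 hc
  obtain ⟨q, _, hq, hqm⟩ := Nat.forall_exists_prime_gt_and_eq_mod hunit 0
  refine ⟨q, ⟨q, hq, rfl⟩, ?_⟩
  have h1 : ((c : ℤ) : ZMod (p ^ k)) = ((q : ℤ) : ZMod (p ^ k)) := by
    rw [← hqm]
    push_cast
    rfl
  have := (ZMod.intCast_eq_intCast_iff_dvd_sub _ _ _).1 h1
  exact_mod_cast this

/-- **The exponents of `p` in the factorials of the set of all primes** (Bhargava). -/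
lemma all_exponent {p n M : ℕ} (hn : 1 ≤ n) (hp : p.Prime) (hM : IsFactorial AllPrimes n M) :
    M.factorization p = E p (n - 1) (n + 1) := by
  obtain ⟨a, ha, he⟩ := (factorization_spec hM).2 p hp
  apply le_antisymm
  · have := upper_mem hn hp (allPrimes_dense hp) ⟨p, hp, rfl⟩ ha
    rw [he] at this
    exact_mod_cast this
  · have := lower_all (n + 1) hn hp (le_refl AllPrimes) ha
    rw [he] at this
    exact_mod_cast this

/-- **Main divisibility.** -/
theorem mul_extra_dvd {Y : Set ℤ} (hY : Y ⊆ AllPrimes) {n N M : ℕ} (hn : 1 ≤ n)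
    (hN : IsFactorial Y n N) (hM : IsFactorial AllPrimes n M) : M * extra Y n ∣ N := by
  have hM0 := (factorization_spec hM).1
  obtain ⟨hN0, hNs⟩ := factorization_spec hN
  rw [← Nat.factorization_le_iff_dvd (mul_ne_zero hM0 (extra_ne_zero hn)) hN0]
  intro p
  by_cases hp : p.Prime
  swap
  · rw [Nat.factorization_eq_zero_of_not_prime _ hp]
    exact Nat.zero_le _
  rw [Nat.factorization_mul hM0 (extra_ne_zero hn), Finsupp.add_apply, all_exponent hn hp hM,
    extra_factorization hn hp]
  obtain ⟨b, hb, he⟩ := hNs p hp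
  by_cases hpY : (p : ℤ) ∈ Y
  · rw [if_neg (fun h : (p : ℤ) ∉ Y ∧ (p - 1) ∣ n => h.1 hpY), add_zero]
    have := lower_all (n + 1) hn hp hY hb
    rw [he] at this
    exact_mod_cast this
  · have h1 := lower_notMem (n + 1) hp hY hpY hb
    rw [he, E_succ hn hp] at h1
    have h2 : E p (n - 1) (n + 1) + (if (p - 1) ∣ n then 1 + padicValNat p n else 0) ≤
        N.factorization p := by exact_mod_cast h1
    simpa [hpY] using h2

/-- **Equality** if `Y` meets all the classes of integers prime to `p` modulo all powers of `p`. -/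
theorem eq_mul_extra {Y : Set ℤ} (hY : Y ⊆ AllPrimes) (hD : ∀ p : ℕ, p.Prime → UnitDense Y p)
    {n N M : ℕ} (hn : 1 ≤ n)
    (hN : IsFactorial Y n N) (hM : IsFactorial AllPrimes n M) : N = M * extra Y n := by
  have hM0 := (factorization_spec hM).1
  obtain ⟨hN0, hNs⟩ := factorization_spec hN
  refine Nat.dvd_antisymm ?_ (mul_extra_dvd hY hn hN hM)
  rw [← Nat.factorization_le_iff_dvd hN0 (mul_ne_zero hM0 (extra_ne_zero hn))]
  intro p
  by_cases hp : p.Prime
  swap
  · rw [Nat.factorization_eq_zero_of_not_prime _ hp]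
    exact Nat.zero_le _
  rw [Nat.factorization_mul hM0 (extra_ne_zero hn), Finsupp.add_apply, all_exponent hn hp hM,
    extra_factorization hn hp]
  obtain ⟨b, hb, he⟩ := hNs p hp
  by_cases hpY : (p : ℤ) ∈ Y
  · rw [if_neg (fun h : (p : ℤ) ∉ Y ∧ (p - 1) ∣ n => h.1 hpY), add_zero]
    have := upper_mem hn hp (hD p hp) hpY hb
    rw [he] at this
    exact_mod_cast this
  · have h1 := upper_units hp (hD p hp) hb
    rw [he, E_succ hn hp] at h1
    have h2 : N.factorization p ≤
        E p (n - 1) (n + 1) + (if (p - 1) ∣ n then 1 + padicValNat p n else 0) := by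
      exact_mod_cast h1
    simpa [hpY] using h2

lemma triplet_subset : TripletPrimes ⊆ AllPrimes := fun _ hx => triplet_prime hx

lemma two_notMem : ((2 : ℕ) : ℤ) ∉ TripletPrimes := by
  rintro ⟨p, h1, h2, h3, h | h | h⟩
  · have : p = 2 := by omega
    subst this; norm_num at h2
  · have : p = 0 := by omega
    subst this; norm_num at h1
  · omega

lemma three_notMem : ((3 : ℕ) : ℤ) ∉ TripletPrimes := by
  rintro ⟨p, h1, h2, h3, h | h | h⟩
  · have : p = 3 := by omega
    subst this; norm_num at h3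
  · have : p = 1 := by omega
    subst this; norm_num at h1
  · omega

open scoped Classical in
/-- The product of `p ^ (1 + v_p(n))` over the primes `p ≥ 5` which are in no triplet and for which
`p - 1` divides `n` (these are at most `n + 1`). -/
noncomputable def excess (n : ℕ) : ℕ :=
  ∏ p ∈ (range (n + 2)).filter
      (fun p : ℕ => p.Prime ∧ 5 ≤ p ∧ (p : ℤ) ∉ TripletPrimes ∧ (p - 1) ∣ n),
        p ^ (1 + padicValNat p n)

lemma extra_eq {n : ℕ} (hn : 1 ≤ n) : extra TripletPrimes n = proposedRatio n * excess n := by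
  classical
  unfold extra
  rw [← prod_filter_not_mul_prod_filter (missing TripletPrimes n) (fun p => 5 ≤ p)]
  congr 1
  · -- the primes two and three
    have h2 : 2 ∈ missing TripletPrimes n := (mem_missing hn).2
      ⟨Nat.prime_two, two_notMem, by norm_num⟩
    unfold proposedRatio
    split_ifs with he
    · have h3 : 3 ∈ missing TripletPrimes n := (mem_missing hn).2
        ⟨Nat.prime_three, three_notMem, by simpa using he.two_dvd⟩
      have hset : (missing TripletPrimes n).filter (fun p => ¬ 5 ≤ p) = {2, 3} := by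
        ext p
        rw [mem_filter, mem_insert, mem_singleton]
        constructor
        · rintro ⟨h, h'⟩
          have hp := ((mem_missing hn).1 h).1
          have := hp.two_le
          have h4 : p ≠ 4 := by rintro rfl; norm_num at hp
          omega
        · rintro (rfl | rfl)
          · exact ⟨h2, by norm_num⟩
          · exact ⟨h3, by norm_num⟩
      rw [hset, prod_pair (by norm_num), show Nat.factorial 3 = 2 * 3 from rfl, pow_add, pow_add]
      ring
    · have hset : (missing TripletPrimes n).filter (fun p => ¬ 5 ≤ p) = {2} := by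
        ext p
        rw [mem_filter, mem_singleton]
        constructor
        · rintro ⟨h, h'⟩
          have hp := ((mem_missing hn).1 h).1
          have := hp.two_le
          have h4 : p ≠ 4 := by rintro rfl; norm_num at hp
          have h3 : p ≠ 3 := by
            rintro rfl
            apply he
            have := ((mem_missing hn).1 h).2.2
            exact even_iff_two_dvd.2 (by simpa using this)
          omega
        · rintro rfl
          exact ⟨h2, by norm_num⟩
      have h0 : padicValNat 2 n = 0 := by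
        apply padicValNat.eq_zero_of_not_dvd
        intro h
        exact he (even_iff_two_dvd.2 h)
      rw [hset, prod_singleton, h0]
      norm_num
  · unfold excess
    apply prod_congr _ fun _ _ => rfl
    ext p
    rw [mem_filter, mem_missing hn, mem_filter, mem_range]
    constructor
    · rintro ⟨⟨h1, h2, h3⟩, h4⟩
      have := Nat.le_of_dvd (by omega) h3
      exact ⟨by omega, h1, h4, h2, h3⟩
    · rintro ⟨_, h1, h4, h2, h3⟩
      exact ⟨⟨h1, h2, h3⟩, h4⟩

lemma proposedRatio_ne_zero {n : ℕ} (hn : 1 ≤ n) : proposedRatio n ≠ 0 := by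
  intro h
  have h1 := extra_ne_zero (Y := TripletPrimes) hn
  rw [extra_eq hn, h, zero_mul] at h1
  exact h1 rfl

lemma pow_dvd_excess {n p : ℕ} (hn : 1 ≤ n) (hp : p.Prime) (h5 : 5 ≤ p)
    (hpT : (p : ℤ) ∉ TripletPrimes) (hd : (p - 1) ∣ n) : p ^ (1 + padicValNat p n) ∣ excess n := by
  classical
  unfold excess
  apply dvd_prod_of_mem (fun p : ℕ => p ^ (1 + padicValNat p n))
  rw [mem_filter, mem_range]
  have := Nat.le_of_dvd (by omega) hd
  exact ⟨by omega, hp, h5, hpT, hd⟩

lemma excess_eq_one {n : ℕ} (h : ∀ p : ℕ, p.Prime → 5 ≤ p → (p : ℤ) ∉ TripletPrimes → ¬ (p - 1) ∣ n) :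
    excess n = 1 := by
  classical
  unfold excess
  apply prod_eq_one
  intro p hp
  rw [mem_filter] at hp
  exact absurd hp.2.2.2.2 (h p hp.2.1 hp.2.2.1 hp.2.2.2.1)

end Pool.Agent.KS6_51.BFac
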