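import Pool.Agent.KS6_51.BFac.Count

/-!
# Bhargava's factorials of sets of primes
-/

set_option autoImplicit false

open Finset Polynomial

namespace Pool.Agent.KS6_51.BFac

open Pool.Agent.Results.MP_1b3ee4_nt.PrimeTriplets

/-- Every class of integers prime to `p`, modulo every power of `p`, contains an element of `Y`. -/
def UnitDense (Y : Set ℤ) (p : ℕ) : Prop :=
  ∀ k : ℕ, ∀ c : ℤ, ¬ (p : ℤ) ∣ c → ∃ y ∈ Y, (p : ℤ) ^ k ∣ y - c

lemma not_dvd_u {p : ℕ} (hp : p.Prime) (i : ℕ) : ¬ (p : ℤ) ∣ (u p i : ℤ) := by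
  intro h
  have h1 : p ∣ u p i := by exact_mod_cast h
  have h2 := Nat.mod_eq_zero_of_dvd h1
  rw [u_mod hp.two_le] at h2
  omega

lemma prime_not_dvd {p : ℕ} (hp : p.Prime) {y : ℤ} (hy : y ∈ AllPrimes) (hne : y ≠ p) :
    ¬ (p : ℤ) ∣ y := by
  obtain ⟨q, hq, rfl⟩ := hy
  intro h
  apply hne
  have h2 : p ∣ q := by exact_mod_cast h
  rw [(Nat.prime_dvd_prime_iff_eq hp hq).1 h2]

/-- lower bound at a prime outside `Y` -/
lemma lower_notMem {p n : ℕ} (K : ℕ) (hp : p.Prime) {Y : Set ℤ} (hY : Y ⊆ AllPrimes)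
    (hpY : (p : ℤ) ∉ Y) {b : ℕ → ℤ} (hb : IsPOrdering Y p n b) :
    (E p n K : ℕ∞) ≤ expo p b n (b n) := by
  refine lower hp hb (nodal_monic (fun i => (u p i : ℤ)) n) (nodal_natDegree _ n) fun y hy => ?_
  rw [nodal_eval]
  exact units_dvd hp n K (prime_not_dvd hp (hY hy) fun h => hpY (h ▸ hy))

/-- lower bound at every prime -/
lemma lower_all {p n : ℕ} (K : ℕ) (hn : 1 ≤ n) (hp : p.Prime) {Y : Set ℤ} (hY : Y ⊆ AllPrimes)
    {b : ℕ → ℤ} (hb : IsPOrdering Y p n b) :
    (E p (n - 1) K : ℕ∞) ≤ expo p b n (b n) := by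
  refine lower hp hb (F := (X - C (p : ℤ)) * nodal (fun i => (u p i : ℤ)) (n - 1))
    ((monic_X_sub_C _).mul (nodal_monic _ _)) ?_ fun y hy => ?_
  · rw [(monic_X_sub_C _).natDegree_mul (nodal_monic _ _), nodal_natDegree, natDegree_X_sub_C]
    omega
  · rw [eval_mul, nodal_eval]
    by_cases h : y = p
    · rw [h]
      simp
    · exact Dvd.dvd.mul_left (units_dvd hp (n - 1) K (prime_not_dvd hp (hY hy) h)) _

lemma u_inj {p : ℕ} (hp : p.Prime) {K N : ℕ} (hKN : N ≤ p ^ K * (p - 1)) {i j : ℕ} (hi : i < N)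
    (hj : j < N) (h : (p : ℤ) ^ (K + 1) ∣ (u p i : ℤ) - u p j) : i = j := by
  have h1 : u p j ≡ u p i [MOD p ^ (K + 1)] := by
    rw [← Int.natCast_modEq_iff, Int.modEq_iff_dvd]
    push_cast
    exact h
  rw [u_modEq hp.two_le] at h1
  exact (Nat.ModEq.eq_of_lt_of_lt h1 (by omega) (by omega)).symm

lemma z_dvd_iff {p K : ℕ} {z v : ℕ → ℤ} {i j m : ℕ} (hm : m ≤ K)
    (hi : (p : ℤ) ^ (K + 1) ∣ z i - v i) (hj : (p : ℤ) ^ (K + 1) ∣ z j - v j) :
    (p : ℤ) ^ (m + 1) ∣ z i - z j ↔ (p : ℤ) ^ (m + 1) ∣ v i - v j := by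
  have h1 : (p : ℤ) ^ (m + 1) ∣ (z i - v i) - (z j - v j) :=
    (pow_dvd_pow _ (by omega)).trans (dvd_sub hi hj)
  constructor
  · intro h
    have := dvd_sub h h1
    have h2 : z i - z j - ((z i - v i) - (z j - v j)) = v i - v j := by ring
    rwa [h2] at this
  · intro h
    have := dvd_add h h1
    have h2 : v i - v j + ((z i - v i) - (z j - v j)) = z i - z j := by ring
    rwa [h2] at this

/-- the differences of elements congruent to the `u i` -/
lemma units_case {p : ℕ} (hp : p.Prime) {K N : ℕ} (hKN : N ≤ p ^ K * (p - 1)) {z : ℕ → ℤ}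
    (hz : ∀ i, (p : ℤ) ^ (K + 1) ∣ z i - u p i) {i : ℕ} (hi : i < N) {t : ℕ}
    (ht : E p (N - 1) K < t) :
    ¬ (p : ℤ) ^ t ∣ ∏ j ∈ (range N).erase i, (z i - z j) := by
  apply not_pow_dvd_prod hp _ _ K
  · intro j hj h
    rw [mem_erase, mem_range] at hj
    have h1 := (z_dvd_iff (v := fun i => (u p i : ℤ)) le_rfl (hz i) (hz j)).1 h
    exact hj.1 (u_inj hp hKN hi hj.2 h1).symm
  · refine lt_of_le_of_lt (le_of_eq ?_) ((units_diff hp N K i hi).trans_lt ht)
    refine sum_congr rfl fun m hm => ?_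
    rw [mem_range] at hm
    congr 1
    apply filter_congr
    intro j _
    exact z_dvd_iff (v := fun i => (u p i : ℤ)) hm.le (hz i) (hz j)

lemma big {p : ℕ} (hp : p.Prime) (n : ℕ) : n + 1 ≤ p ^ (n + 1) * (p - 1) := by
  have h1 : n + 1 < p ^ (n + 1) := Nat.lt_pow_self hp.one_lt
  have h2 : 1 ≤ p - 1 := by have := hp.two_le; omega
  calc n + 1 ≤ p ^ (n + 1) * 1 := by omega
    _ ≤ _ := Nat.mul_le_mul_left _ h2

/-- upper bound, only the classes prime to `p` are used -/
lemma upper_units {p n : ℕ} (hp : p.Prime) {Y : Set ℤ} (hY : UnitDense Y p) {a : ℕ → ℤ}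
    (ha : IsPOrdering Y p n a) : expo p a n (a n) ≤ (E p n (n + 1) : ℕ) := by
  choose z hz1 hz2 using fun i : ℕ => hY (n + 1 + 1) (u p i) (not_dvd_u hp i)
  have hK := big hp n
  have h := upper hp ha (t := E p n (n + 1) + 1) z (fun i _ => hz1 i) ?_ ?_
  · exact Order.le_of_lt_add_one (by exact_mod_cast h)
  · intro i hi j hj hij h
    apply hij
    refine u_inj hp hK (by omega) (by omega) ?_
    rw [← z_dvd_iff (v := fun i => (u p i : ℤ)) le_rfl (hz2 i) (hz2 j), h, sub_self]
    exact dvd_zero _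
  · intro i hi
    exact units_case hp hK hz2 (by omega) (by simp)

/-- upper bound if `p` belongs to the set -/
lemma upper_mem {p n : ℕ} (hn : 1 ≤ n) (hp : p.Prime) {Y : Set ℤ} (hY : UnitDense Y p)
    (hpY : (p : ℤ) ∈ Y) {a : ℕ → ℤ}
    (ha : IsPOrdering Y p n a) : expo p a n (a n) ≤ (E p (n - 1) (n + 1) : ℕ) := by
  choose z hz1 hz2 using fun i : ℕ => hY (n + 1 + 1) (u p i) (not_dvd_u hp i)
  have hK := big hp n
  have hzp : ∀ i, ¬ (p : ℤ) ∣ z i := by
    intro i h
    have h1 : (p : ℤ) ∣ z i - u p i := (dvd_pow_self _ (by omega)).trans (hz2 i)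
    have := dvd_sub h h1
    rw [sub_sub_cancel] at this
    exact not_dvd_u hp i this
  let z' : ℕ → ℤ := fun i => Nat.casesOn i (p : ℤ) z
  have h0 : z' 0 = p := rfl
  have hs : ∀ i, z' (i + 1) = z i := fun _ => rfl
  have hpp : Prime (p : ℤ) := Nat.prime_iff_prime_int.1 hp
  have hinj : ∀ i < n, ∀ j < n, i ≠ j → z i ≠ z j := by
    intro i hi j hj hij h
    apply hij
    refine u_inj hp (N := n) (K := n + 1) (by omega) hi hj ?_
    rw [← z_dvd_iff (v := fun i => (u p i : ℤ)) le_rfl (hz2 i) (hz2 j), h, sub_self]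
    exact dvd_zero _
  have h := upper hp ha (t := E p (n - 1) (n + 1) + 1) z' ?_ ?_ ?_
  · exact Order.le_of_lt_add_one (by exact_mod_cast h)
  · intro i _
    cases i with
    | zero => exact hpY
    | succ i => exact hz1 i
  · intro i hi j hj hij
    cases i with
    | zero =>
      cases j with
      | zero => exact absurd rfl hij
      | succ j =>
        rw [h0, hs]
        intro h
        apply hzp j
        rw [← h]
    | succ i =>
      cases j with
      | zero =>
        rw [h0, hs]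
        intro h
        apply hzp i
        rw [h]
      | succ j =>
        rw [hs, hs]
        exact hinj i (by omega) j (by omega) fun h => hij (by rw [h])
  · intro i hi
    cases i with
    | zero =>
      have h1 : ¬ (p : ℤ) ^ 1 ∣ ∏ j ∈ (range (n + 1)).erase 0, (z' 0 - z' j) := by
        rw [pow_one, Prime.dvd_finsetProd_iff hpp]
        rintro ⟨j, hj, hd⟩
        rw [mem_erase] at hj
        obtain ⟨j', rfl⟩ : ∃ j', j = j' + 1 := ⟨j - 1, by omega⟩
        rw [h0, hs] at hd
        apply hzp j'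
        have := dvd_sub (dvd_refl (p : ℤ)) hd
        rwa [sub_sub_cancel] at this
      intro h
      exact h1 ((pow_dvd_pow _ (by omega)).trans h)
    | succ i =>
      have hset : (range (n + 1)).erase (i + 1) = insert 0 (((range n).erase i).map
          ⟨Nat.succ, Nat.succ_injective⟩) := by
        ext j
        simp only [mem_erase, mem_range, mem_insert, mem_map, Function.Embedding.coeFn_mk]
        constructor
        · intro hj
          rcases Nat.eq_zero_or_pos j with h | h
          · left; exact h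
          · right
            exact ⟨j - 1, ⟨by omega, by omega⟩, by simp only [Nat.succ_eq_add_one]; omega⟩
        · rintro (h | ⟨j', ⟨h1, h2⟩, rfl⟩)
          · omega
          · simp only [Nat.succ_eq_add_one]
            omega
      rw [hset, prod_insert (by simp), prod_map]
      have h1 := units_case hp (N := n) (K := n + 1) (by omega) hz2 (i := i) (by omega)
        (t := E p (n - 1) (n + 1) + 1) (by omega)
      have h2 : ∏ x ∈ (range n).erase i, (z' (i + 1) - z' ((⟨Nat.succ, Nat.succ_injective⟩ :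
          ℕ ↪ ℕ) x)) = ∏ j ∈ (range n).erase i, (z i - z j) := by
        apply prod_congr rfl
        intro j _
        rfl
      rw [h2, hs, h0]
      intro h
      apply h1
      have h3 : IsCoprime ((p : ℤ) ^ (E p (n - 1) (n + 1) + 1)) (z i - p) := by
        apply IsCoprime.pow_left
        rw [(Prime.coprime_iff_not_dvd hpp)]
        intro h4
        apply hzp i
        have := dvd_add h4 (dvd_refl (p : ℤ))
        rwa [sub_add_cancel] at this
      exact h3.dvd_of_dvd_mul_left h

/-- `E p n - E p (n-1)` -/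
lemma E_succ {p n : ℕ} (hn : 1 ≤ n) (hp : p.Prime) :
    E p n (n + 1) = E p (n - 1) (n + 1) + if (p - 1) ∣ n then 1 + padicValNat p n else 0 := by
  have : Fact p.Prime := ⟨hp⟩
  have h1 : ∀ m, n / (p ^ m * (p - 1)) =
      (n - 1) / (p ^ m * (p - 1)) + if p ^ m * (p - 1) ∣ n then 1 else 0 := by
    intro m
    obtain ⟨k, rfl⟩ : ∃ k, n = k + 1 := ⟨n - 1, by omega⟩
    exact Nat.succ_div
  unfold E
  rw [sum_congr rfl fun m _ => h1 m, sum_add_distrib]
  congr 1
  split_ifs with h
  · rw [← card_filter]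
    have h2 : ({m ∈ range (n + 1) | p ^ m * (p - 1) ∣ n} : Finset ℕ) =
        range (1 + padicValNat p n) := by
      ext m
      rw [mem_filter, mem_range, mem_range]
      have hcop : Nat.Coprime (p ^ m) (p - 1) := by
        apply Nat.Coprime.pow_left
        rw [hp.coprime_iff_not_dvd]
        intro h3
        have := Nat.le_of_dvd (by have := hp.two_le; omega) h3
        have := hp.two_le
        omega
      have h3 : p ^ m * (p - 1) ∣ n ↔ m ≤ padicValNat p n := by
        rw [← padicValNat_dvd_iff_le (by omega : n ≠ 0)]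
        exact ⟨fun h' => (dvd_mul_right _ _).trans h', fun h' => hcop.mul_dvd_of_dvd_of_dvd h' h⟩
      rw [h3]
      constructor
      · intro h'; omega
      · intro h'
        refine ⟨?_, by omega⟩
        have h4 : p ^ m ∣ n := (padicValNat_dvd_iff_le (by omega : n ≠ 0)).2 (by omega)
        have h5 := Nat.le_of_dvd (by omega) h4
        have h6 : m < p ^ m := Nat.lt_pow_self hp.one_lt
        omega
    rw [h2, card_range]
  · apply sum_eq_zero
    intro m _
    rw [if_neg]
    intro h'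
    exact h ((dvd_mul_left _ _).trans h')

end Pool.Agent.KS6_51.BFac
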